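import Pool.Agent.Run7.h311.EX.Frame

/-! # The derivative at isolated zeros from below, relative to a further weight -/

set_option autoImplicit false

open Complex Filter Topology Set MeasureTheory Metric
open scoped BigOperators ComplexConjugate

namespace Run7.h311.DV

open Pool.Agent.N802 Pool.Agent.N802.U Pool.Agent.N802.WD Run7.h311.EX
open Pool.Agent.R399.TW (pt pt_re pt_im pt_cont)

/-- **derivatives from below**: if the mollifier times a further weight is bounded in weighted mean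
square near the zeros, then the derivative is bounded below by that weight at most of them -/
theorem large_coreE {d0 β C₂ N : ℝ} (hd0 : 0 < d0) (hd1 : d0 ≤ 1 / 10) (hβ : 0 < β) (hβ1 : β ≤ 1)
    (hC₂ : 0 < C₂) (hN : 0 < N) :
    ∃ Cs : ℝ, ∃ L0 : ℝ, 0 < Cs ∧ 1 ≤ L0 ∧ ∀ (T L : ℝ), 100 ≤ T → L = Real.log T → L0 ≤ L →
    ∀ (Z : Finset ℂ), (∀ s ∈ Z, Iz d0 T s) → ∀ (M : ℂ → ℂ), Differentiable ℂ M →
    ∀ (w g : ℂ → ℝ), (∀ s ∈ Z, 0 ≤ w s) → (∀ s ∈ Z, 0 ≤ g s) → ∀ W : ℝ, 0 ≤ W →
    ∑ s ∈ Z, w s ≤ W → ∀ Θ : ℝ, 0 < Θ →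
    (∀ z : ℂ, ‖z‖ ≤ d0 / (4 * L) → ∑ s ∈ Z, w s * g s * ‖M (s + z)‖ ^ 2 ≤ Θ * W) →
    (∀ v : ℂ, -(3 / (8 * L)) ≤ v.re → v.re ≤ 20 → |v.im| ≤ 20 →
      ∑ s ∈ Z, w s * ‖riemannZeta (s + v) * M (s + v) - 1‖ ^ 2 ≤
        C₂ * Real.exp (-(β * L * v.re)) * W) →
    ∑ s ∈ Z, w s ≤
      ∑ s ∈ Z.filter (fun s => g s * L ^ 2 ≤ Cs * Θ * ‖deriv riemannZeta s‖ ^ 2), w s +
        3 * (W / N) := by
  -- the constants
  obtain ⟨B, hB0, hB⟩ : ∃ B : ℝ, 0 < B ∧ 4 * N * C₂ * Real.exp (-(β * B)) ≤ 1 := by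
    refine ⟨max 1 (Real.log (4 * N * C₂) / β), lt_max_of_lt_left one_pos, ?_⟩
    have h1 : Real.log (4 * N * C₂) ≤ β * max 1 (Real.log (4 * N * C₂) / β) := by
      have := le_max_right 1 (Real.log (4 * N * C₂) / β)
      rw [div_le_iff₀ hβ] at this
      linarith
    have h2 : Real.exp (-(β * max 1 (Real.log (4 * N * C₂) / β))) ≤ (4 * N * C₂)⁻¹ := by
      rw [← Real.exp_log (by positivity : 0 < (4 * N * C₂)⁻¹), Real.log_inv]
      exact Real.exp_le_exp.2 (by linarith)
    calc 4 * N * C₂ * Real.exp (-(β * max 1 (Real.log (4 * N * C₂) / β))) ≤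
        4 * N * C₂ * (4 * N * C₂)⁻¹ := by gcongr
      _ = 1 := mul_inv_cancel₀ (by positivity)
  obtain ⟨A, hA⟩ : ∃ A : ℝ, A = N * (2 * (C₂ * Real.exp 1) + 2) := ⟨_, rfl⟩
  have hA0 : 0 < A := by rw [hA]; positivity
  obtain ⟨Rr, hRr⟩ : ∃ Rr : ℝ, Rr = (4 * (B + 1 / 4) / d0) ^ 2 := ⟨_, rfl⟩
  refine ⟨Real.exp (2 * (1 / 2 * Real.log (2 * N) + Rr * (Real.log 2 + A / 2))), max 10 (B + 1),
    Real.exp_pos _, le_trans (by norm_num) (le_max_left _ _), ?_⟩
  intro T L hT hL hL0 Z hZ M hM w g hw hg W hW0 hW2 Θ hΘ hsm hrt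
  have hL10 : 10 ≤ L := (le_max_left _ _).trans hL0
  have hLB : B + 1 ≤ L := (le_max_right _ _).trans hL0
  have hLp : 0 < L := by linarith
  have hpi := Real.pi_pos
  have hpi3 := Real.pi_gt_three
  obtain ⟨ρ, hρ⟩ : ∃ ρ : ℝ, ρ = d0 / (4 * L) := ⟨_, rfl⟩
  have hρ0 : 0 < ρ := by rw [hρ]; positivity
  have hρ1 : ρ ≤ 1 / (40 * L) := by
    rw [hρ, div_le_div_iff₀ (by positivity) (by positivity)]
    nlinarith
  obtain ⟨R0, hR0⟩ : ∃ R0 : ℝ, R0 = (B + 1 / 4) / L := ⟨_, rfl⟩
  have hR0p : 0 < R0 := by rw [hR0]; positivity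
  have hR01 : R0 ≤ 1 := by
    rw [hR0, div_le_one hLp]
    linarith
  have hL40 : 1 / (40 * L) ≤ 1 / 400 := by
    apply one_div_le_one_div_of_le (by norm_num)
    linarith
  rw [← hρ] at hsm
  obtain ⟨v, hv⟩ : ∃ v : ℂ, v = ((B / L : ℝ) : ℂ) := ⟨_, rfl⟩
  have hvre : v.re = B / L := by rw [hv, Complex.ofReal_re]
  have hvim : v.im = 0 := by rw [hv, Complex.ofReal_im]
  have hBL : B / L ≤ 1 := by
    rw [div_le_one hLp]
    linarith
  have hBL0 : 0 ≤ B / L := by positivity
  -- continuity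
  have him : ∀ s ∈ Z, ∀ z : ℂ, ‖z - s‖ ≤ 3 → 1 < z.im := by
    intro s hs z hz
    have h1 := (hZ s hs).lo
    have h2 := (Complex.abs_im_le_norm (z - s)).trans hz
    rw [Complex.sub_im] at h2
    have h3 := (abs_le.1 h2).1
    linarith
  have hzan : ∀ s ∈ Z, ∀ z : ℂ, ‖z - s‖ ≤ 3 → AnalyticAt ℂ riemannZeta z := fun s hs z hz =>
    zeta_an (ne_one (him s hs z hz))
  -- the first bad set
  set f1 : ℂ → ℝ := fun s => g s * ∫ z in ball s ρ, ‖M z‖ ^ 2 with hf1
  have hb1 : ∑ s ∈ Z.filter (fun s => Real.pi * ρ ^ 2 * (N * Θ) < f1 s), w s ≤ W / N := by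
    refine sel hw (fun s hs => mul_nonneg (hg s hs) (integral_nonneg fun z => by positivity))
      (by positivity) (Y := Real.pi * ρ ^ 2 * (Θ * W)) ?_ (le_of_eq (by field_simp))
    have h1 := avg_sum (Φ := M) (Z := Z) (w := fun s => w s * g s) (v := 0) (r := ρ) (Y := Θ * W)
      hρ0 (fun s _ => hM.continuous.continuousOn) (fun z hz => by
        have h2 := hsm z hz
        simpa using h2)
    simp only [add_zero] at h1
    refine le_trans (le_of_eq ?_) h1
    exact Finset.sum_congr rfl fun s _ => by ring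
  -- the second bad set
  set f2 : ℂ → ℝ := fun s => ∫ z in ball (s + v) R0, ‖riemannZeta z * M z‖ ^ 2 with hf2
  have hb2 : ∑ s ∈ Z.filter (fun s => Real.pi * R0 ^ 2 * A < f2 s), w s ≤ W / N := by
    refine sel hw (fun s _ => integral_nonneg fun z => by positivity) (by positivity)
      (Y := Real.pi * R0 ^ 2 * ((2 * (C₂ * Real.exp 1) + 2) * W)) ?_ (le_of_eq (by rw [hA]; field_simp))
    refine avg_sum (Φ := fun z => riemannZeta z * M z) (Z := Z) (w := w) (v := v) (r := R0) hR0p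
      ?_ ?_
    · intro s hs z hz
      refine ContinuousAt.continuousWithinAt ?_
      refine ContinuousAt.mul (hzan s hs z ?_).continuousAt hM.continuous.continuousAt
      rw [mem_closedBall, dist_eq_norm] at hz
      have h1 : ‖z - s‖ ≤ ‖z - (s + v)‖ + ‖v‖ := by
        have := norm_add_le (z - (s + v)) v
        rwa [show z - (s + v) + v = z - s by ring] at this
      have h2 : ‖v‖ ≤ 1 := by
        rw [hv, Complex.norm_real, Real.norm_of_nonneg hBL0]
        exact hBL
      linarith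
    · intro z hz
      have hzre := (Complex.abs_re_le_norm z).trans hz
      have hzim := (Complex.abs_im_le_norm z).trans hz
      have h1 : -(1 / (4 * L)) ≤ (v + z).re := by
        rw [add_re, hvre]
        have h2 := (abs_le.1 hzre).1
        have h3 : R0 = B / L + 1 / (4 * L) := by
          rw [hR0]
          field_simp
        rw [h3] at h2
        linarith
      have h1' : 1 / (4 * L) ≤ 3 / (8 * L) := by
        rw [div_le_div_iff₀ (by positivity) (by positivity)]
        nlinarith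
      have h2 : (v + z).re ≤ 20 := by
        rw [add_re, hvre]
        have h2 := (abs_le.1 hzre).2
        linarith
      have h3 : |(v + z).im| ≤ 20 := by
        rw [add_im, hvim, zero_add]
        linarith
      have h4 := hrt (v + z) (by linarith) h2 h3
      have h5 : Real.exp (-(β * L * (v + z).re)) ≤ Real.exp 1 := by
        apply Real.exp_le_exp.2
        have h6 : β * L * (-(1 / (4 * L))) ≤ β * L * (v + z).re := by gcongr
        have h7 : β * L * (-(1 / (4 * L))) = -(β / 4) := by field_simp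
        linarith
      have h6 : ∀ s ∈ Z, w s * ‖riemannZeta (s + v + z) * M (s + v + z)‖ ^ 2 ≤
          2 * (w s * ‖riemannZeta (s + (v + z)) * M (s + (v + z)) - 1‖ ^ 2) + 2 * w s := by
        intro s hs
        rw [← add_assoc]
        set F := riemannZeta (s + v + z) * M (s + v + z)
        have h8 : ‖F‖ ≤ ‖F - 1‖ + 1 := by
          have := norm_add_le (F - 1) 1
          rw [sub_add_cancel, norm_one] at this
          exact this
        have h9 : ‖F‖ ^ 2 ≤ 2 * ‖F - 1‖ ^ 2 + 2 := by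
          have h10 := norm_nonneg F
          have h11 := norm_nonneg (F - 1)
          nlinarith [sq_nonneg (‖F - 1‖ - 1)]
        have := mul_le_mul_of_nonneg_left h9 (hw s hs)
        linarith
      refine (Finset.sum_le_sum h6).trans ?_
      rw [Finset.sum_add_distrib, ← Finset.mul_sum, ← Finset.mul_sum]
      calc 2 * ∑ s ∈ Z, w s * ‖riemannZeta (s + (v + z)) * M (s + (v + z)) - 1‖ ^ 2 +
          2 * ∑ s ∈ Z, w s ≤ 2 * (C₂ * Real.exp (-(β * L * (v + z).re)) * W) + 2 * W := by gcongr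
        _ ≤ 2 * (C₂ * Real.exp 1 * W) + 2 * W := by gcongr
        _ = _ := by ring
  -- the third bad set
  set f3 : ℂ → ℝ := fun s => ‖riemannZeta (s + v) * M (s + v) - 1‖ ^ 2 with hf3
  have hb3 : ∑ s ∈ Z.filter (fun s => 1 / 4 < f3 s), w s ≤ W / N := by
    refine sel hw (fun s _ => by positivity) (by norm_num)
      (Y := C₂ * Real.exp (-(β * L * v.re)) * W) ?_ ?_
    · exact hrt v (by
        rw [hvre]
        have : 0 ≤ 3 / (8 * L) := by positivity
        linarith) (by rw [hvre]; linarith) (by rw [hvim, abs_zero]; norm_num)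
    · rw [hvre]
      have e1 : β * L * (B / L) = β * B := by field_simp
      rw [e1]
      have hB' := mul_le_mul_of_nonneg_right hB hW0
      rw [← mul_div_assoc, le_div_iff₀ hN]
      linarith
  -- the good set
  have hgood : ∑ s ∈ Z, w s - 3 * (W / N) ≤ ∑ s ∈ Z.filter (fun s => f1 s ≤ Real.pi * ρ ^ 2 * (N * Θ) ∧
      f2 s ≤ Real.pi * R0 ^ 2 * A ∧ f3 s ≤ 1 / 4), w s := by
    have h1 : ∑ s ∈ Z, w s ≤ ∑ s ∈ Z.filter (fun s => f1 s ≤ Real.pi * ρ ^ 2 * (N * Θ) ∧
        f2 s ≤ Real.pi * R0 ^ 2 * A ∧ f3 s ≤ 1 / 4), w s +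
        (∑ s ∈ Z.filter (fun s => Real.pi * ρ ^ 2 * (N * Θ) < f1 s), w s +
        (∑ s ∈ Z.filter (fun s => Real.pi * R0 ^ 2 * A < f2 s), w s +
        ∑ s ∈ Z.filter (fun s => 1 / 4 < f3 s), w s)) := by
      simp only [Finset.sum_filter]
      rw [← Finset.sum_add_distrib, ← Finset.sum_add_distrib, ← Finset.sum_add_distrib]
      refine Finset.sum_le_sum fun s hs => ?_
      have := hw s hs
      by_cases c1 : f1 s ≤ Real.pi * ρ ^ 2 * (N * Θ)
      · by_cases c2 : f2 s ≤ Real.pi * R0 ^ 2 * A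
        · by_cases c3 : f3 s ≤ 1 / 4
          · rw [if_pos ⟨c1, c2, c3⟩, if_neg (not_lt.2 c1), if_neg (not_lt.2 c2),
              if_neg (not_lt.2 c3)]
            linarith
          · rw [if_neg (fun h => c3 h.2.2), if_neg (not_lt.2 c1), if_neg (not_lt.2 c2),
              if_pos (not_le.1 c3)]
            linarith
        · rw [if_neg (fun h => c2 h.2.1), if_neg (not_lt.2 c1), if_pos (not_le.1 c2)]
          split_ifs <;> linarith
      · rw [if_neg (fun h => c1 h.1), if_pos (not_le.1 c1)]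
        split_ifs <;> linarith
    linarith
  rw [← sub_le_iff_le_add]
  refine hgood.trans ?_
  refine Finset.sum_le_sum_of_subset_of_nonneg ?_ fun s hs _ => hw s (Finset.mem_filter.1 hs).1
  intro s hs
  rw [Finset.mem_filter] at hs ⊢
  obtain ⟨hs, g1, g2, g3⟩ := hs
  refine ⟨hs, ?_⟩
  have hiz := hZ s hs
  have hsim : 1 < s.im := him s hs s (by simp)
  have hls : Real.log s.im ≤ 2 * L := by
    have h1 : Real.log s.im ≤ Real.log (T ^ 2) := by
      apply Real.log_le_log (by linarith)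
      nlinarith [hiz.hi]
    rw [Real.log_pow, ← hL] at h1
    exact_mod_cast h1
  have hls0 : 0 < Real.log s.im := Real.log_pos hsim
  have hiso : ∀ z ∈ closedBall s ρ, z ≠ s → riemannZeta z ≠ 0 := by
    intro z hz hzs hz0
    rw [mem_closedBall, dist_eq_norm] at hz
    have h1 := (Complex.abs_re_le_norm (z - s)).trans hz
    rw [Complex.sub_re, hiz.re] at h1
    have h2 := abs_le.1 h1
    have h3 := hiz.iso z hz0 (by linarith) (by linarith) hzs
    have h4 : d0 / (2 * L) ≤ d0 / Real.log s.im := div_le_div_of_nonneg_left hd0.le hls0 hls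
    have h5 : ρ < d0 / (2 * L) := by
      rw [hρ, div_lt_div_iff₀ (by positivity) (by positivity)]
      nlinarith
    linarith
  have hsub : closedBall s ρ ⊆ ball (s + v) R0 := by
    intro z hz
    rw [mem_closedBall, dist_eq_norm] at hz
    rw [mem_ball, dist_eq_norm]
    have h1 : ‖z - (s + v)‖ ≤ ‖z - s‖ + ‖v‖ := by
      have := norm_sub_le (z - s) v
      rwa [show z - s - v = z - (s + v) by ring] at this
    have h2 : ‖v‖ = B / L := by
      rw [hv, Complex.norm_real, Real.norm_of_nonneg hBL0]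
    have h3 : R0 = B / L + 1 / (4 * L) := by
      rw [hR0]
      field_simp
    have h4 : 1 / (40 * L) < 1 / (4 * L) := by
      apply one_div_lt_one_div_of_lt (by positivity)
      linarith
    rw [h3]
    linarith
  have hnear : ∀ z ∈ closedBall (s + v) R0, ‖z - s‖ ≤ 3 := by
    intro z hz
    rw [mem_closedBall, dist_eq_norm] at hz
    have h1 : ‖z - s‖ ≤ ‖z - (s + v)‖ + ‖v‖ := by
      have := norm_add_le (z - (s + v)) v
      rwa [show z - (s + v) + v = z - s by ring] at this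
    have h2 : ‖v‖ ≤ 1 := by
      rw [hv, Complex.norm_real, Real.norm_of_nonneg hBL0]
      exact hBL
    linarith
  have hf : 1 / 2 ≤ ‖riemannZeta (s + v) * M (s + v)‖ := by
    have h1 : ‖riemannZeta (s + v) * M (s + v) - 1‖ ≤ 1 / 2 := by
      have h2 : ‖riemannZeta (s + v) * M (s + v) - 1‖ ^ 2 ≤ (1 / 2) ^ 2 := by
        have := g3
        rw [hf3] at this
        simp only at this
        linarith
      exact (sq_le_sq₀ (norm_nonneg _) (by norm_num)).1 h2
    have h3 := norm_sub_norm_le (1 : ℂ) (1 - riemannZeta (s + v) * M (s + v))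
    rw [norm_one, sub_sub_cancel, norm_sub_rev] at h3
    linarith
  rcases (hg s hs).eq_or_lt with hg0 | hg0
  · rw [← hg0, zero_mul]
    positivity
  have hΘg : 0 < N * (Θ / g s) := by positivity
  have g1' : ∫ z in ball s ρ, ‖M z‖ ^ 2 ≤ Real.pi * ρ ^ 2 * (N * (Θ / g s)) := by
    rw [hf1] at g1
    simp only at g1
    have e0 : Real.pi * ρ ^ 2 * (N * (Θ / g s)) = Real.pi * ρ ^ 2 * (N * Θ) / g s := by
      field_simp
    rw [e0, le_div_iff₀ hg0]
    linarith
  have hkey := disc_low zeta_meas hM.continuous.measurable (ρ := s) (c := s + v) (r := ρ) (R := R0)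
    hρ0 hsub (fun z hz => hzan s hs z (hnear z hz)) (fun z _ => hM.analyticAt z) hiz.zero
    (deriv_of_order (ne_one hsim) hiz.zero hiz.simple) hiso (Θ := N * (Θ / g s)) (A := A)
    hΘg g1' hf g2
  have hder : 0 < ‖deriv riemannZeta s‖ :=
    norm_pos_iff.2 (deriv_of_order (ne_one hsim) hiz.zero hiz.simple)
  have e1 : (R0 / ρ) ^ 2 = Rr := by
    rw [hRr, hR0, hρ]
    congr 1
    field_simp
  have e2 : Real.log (2 * (N * (Θ / g s))) = Real.log (2 * N) + Real.log Θ - Real.log (g s) := by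
    rw [← Real.log_mul (by positivity : 2 * N ≠ 0) hΘ.ne', ← Real.log_div (by positivity) hg0.ne']
    congr 1
    ring
  have e3 : Real.log L ≤ -Real.log ρ := by
    rw [← Real.log_inv]
    apply Real.log_le_log hLp
    rw [hρ, inv_div, le_div_iff₀ hd0]
    nlinarith
  rw [e1, e2] at hkey
  have hlog : Real.log (g s * L ^ 2) ≤ Real.log (Real.exp (2 * (1 / 2 * Real.log (2 * N) +
      Rr * (Real.log 2 + A / 2))) * Θ * ‖deriv riemannZeta s‖ ^ 2) := by
    rw [Real.log_mul hg0.ne' (by positivity), Real.log_mul (by positivity) (by positivity),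
      Real.log_mul (by positivity) hΘ.ne', Real.log_exp, Real.log_pow, Real.log_pow]
    push_cast
    linarith
  exact (Real.log_le_log_iff (by positivity) (by positivity)).1 hlog

end Run7.h311.DV
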