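import Pool.Agent.Run7.h311.DV.Size
import Pool.Agent.Run7.h311.DM.Dir

/-! # Moments of the derivative over isolated simple zeros, in every weight -/

set_option autoImplicit false

open Complex Filter Topology Set MeasureTheory
open scoped BigOperators ComplexConjugate

namespace Run7.h311.DV

open TC (om)
open Pool.Agent.N802 Pool.Agent.N802.U Pool.Agent.N802.WD Pool.Agent.N802.WD.Msd
open Run7.h311.EX Run7.h311.MO
open Pool.Agent.R399.TW (pt pt_re pt_im pt_cont)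

/-- the mean square of a short Dirichlet polynomial over `[T, 2T]` -/
lemma up_mean {T : ℝ} (hT0 : 0 < T) {Q : Finset ℕ} {d : ℕ → ℂ}
    (h : ∫ t : ℝ, rh (3 / 2 * T) T Q d t ≤ 2 * mr T Q d) :
    ∫ t in T..(2 * T), ‖RP Q d t‖ ^ 2 ≤ 4 * mr T Q d := by
  have hint := rh_intg (τ := 3 / 2 * T) hT0 Q d
  have h3 : Continuous (fun t => RP Q d t) := TP_cont _ _ _ _
  rw [intervalIntegral.integral_of_le (by linarith), ← integral_Icc_eq_integral_Ioc]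
  have h2 : ∫ t in Icc T (2 * T), ‖RP Q d t‖ ^ 2 ≤
      ∫ t in Icc T (2 * T), 2 * rh (3 / 2 * T) T Q d t := by
    refine setIntegral_mono_on (h3.norm.pow 2).continuousOn.integrableOn_Icc
      (hint.const_mul 2).integrableOn measurableSet_Icc fun t ht => ?_
    have hom : 1 / 2 ≤ om (3 / 2 * T) T t := by
      unfold om
      have h5 : -(1 / 2 : ℝ) ≤ -(t - 3 / 2 * T) ^ 2 / (2 * T ^ 2) := by
        rw [neg_div, neg_le_neg_iff, div_le_div_iff₀ (by positivity) (by norm_num)]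
        have h6 : |t - 3 / 2 * T| ≤ T := by
          rw [abs_le]
          constructor <;> linarith [ht.1, ht.2]
        have h7 := sq_abs (t - 3 / 2 * T)
        have h8 := abs_nonneg (t - 3 / 2 * T)
        nlinarith
      have h6 := Real.exp_le_exp.2 h5
      have h7 := Real.add_one_le_exp (-(1 / 2 : ℝ))
      linarith
    unfold rh
    have h5 : 0 ≤ ‖RP Q d t‖ ^ 2 := sq_nonneg _
    nlinarith
  refine h2.trans ?_
  rw [integral_const_mul]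
  have h4 : ∫ t in Icc T (2 * T), rh (3 / 2 * T) T Q d t ≤ ∫ t : ℝ, rh (3 / 2 * T) T Q d t :=
    setIntegral_le_integral hint (Eventually.of_forall fun t => U.rh_nonneg _ _ _ _ t)
  linarith

theorem momE {d0 δf Tf : ℝ} (hd0 : 0 < d0) (hd1 : d0 ≤ 1 / 10)
    (hδf : 0 < δf) (hF : FrameE d0 δf Tf (1 / 10)) (k : ℕ) : ∃ δ α c T0 : ℝ, 0 < δ ∧ 0 < α ∧ 0 < c ∧
    100 ≤ T0 ∧ ∀ T : ℝ, T0 ≤ T → ∃ V : ℝ → ℝ,
    (∀ x, 0 ≤ V x ∧ V x ≤ 1) ∧ (∀ x, x ≤ α / 2 * Real.log T → V x = 1) ∧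
    (∀ x, α * Real.log T ≤ x → V x = 0) ∧
    ∀ S : Finset ℕ, Len S (T ^ δ) → ∀ r : ℕ → ℂ, ∃ G : Finset ℂ, (∀ s ∈ G, Iz d0 T s) ∧
    c * Real.log T ^ (2 * k + 1) * ∫ t in T..(2 * T), ‖Dp V ⌊T ^ α⌋₊ (pt (1 / 2) t)‖ ^ (2 * k) *
      ‖RP S r t‖ ^ 2 ≤ ∑ s ∈ G, ‖deriv riemannZeta s‖ ^ (2 * k) * ‖RP S r s.im‖ ^ 2 := by
  obtain ⟨μ, hμ, hμ32, hsz⟩ := size (by norm_num : (0 : ℝ) < 1 / 10) hd0 hd1 hδf hF
  have hk1 : (0 : ℝ) < (k : ℝ) + 1 := by positivity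
  obtain ⟨α, hα⟩ : ∃ α : ℝ, α = μ / (2 * ((k : ℝ) + 1)) := ⟨_, rfl⟩
  have hα0 : 0 < α := by rw [hα]; positivity
  have hkα : (k : ℝ) * α ≤ μ / 2 := by
    have h1 : ((k : ℝ) + 1) * α = μ / 2 := by rw [hα]; field_simp
    have h2 : (k : ℝ) * α ≤ ((k : ℝ) + 1) * α := by gcongr; linarith
    linarith
  have hαμ : α ≤ μ / 2 := by
    have h1 : ((k : ℝ) + 1) * α = μ / 2 := by rw [hα]; field_simp
    have h2 : 1 * α ≤ ((k : ℝ) + 1) * α := by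
      gcongr
      linarith [(Nat.cast_nonneg k : (0 : ℝ) ≤ k)]
    linarith
  obtain ⟨A, T1, hA, hT1, hs⟩ := hsz α hα0 (by linarith)
  obtain ⟨Tmass, hTmass, hmass⟩ := rh_mass
  refine ⟨μ / 2, α, (A ^ k)⁻¹ / 2000, max T1 Tmass, by positivity, hα0, by positivity,
    hT1.trans (le_max_left _ _), fun T hT => ?_⟩
  have hTT1 : T1 ≤ T := (le_max_left _ _).trans hT
  have hTTm : Tmass ≤ T := (le_max_right _ _).trans hT
  have hT100 : 100 ≤ T := hT1.trans hTT1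
  have hTp : 0 < T := by linarith
  have hT1' : 1 ≤ T := by linarith
  obtain ⟨V, hV, hV1, hV0, hmain⟩ := hs T hTT1
  refine ⟨V, hV, hV1, hV0, fun S hS r => ?_⟩
  obtain ⟨Q, d, hQ0, hd⟩ := DM.prod_Rc (V := V) (α := α) hT1' (fun _ : Fin k => (0 : ℝ)) hS r
    (Finset.univ : Finset (Fin k))
  rw [Finset.card_univ, Fintype.card_fin] at hQ0
  have hQ : Len Q (T ^ μ) := Len_mono hQ0 (Real.rpow_le_rpow_of_exponent_le hT1' (by linarith))
  have hd' : ∀ z : ℂ, Dp V ⌊T ^ α⌋₊ z ^ k * DM.Rc S r z = DM.Rc Q d z := by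
    intro z
    rw [← hd z, Finset.prod_const, Finset.card_univ, Fintype.card_fin]
    simp
  obtain ⟨G, hG, hGs⟩ := hmain Q hQ d
  refine ⟨G, fun s hs => (hG s hs).1, ?_⟩
  obtain ⟨L, hL⟩ : ∃ L : ℝ, L = Real.log T := ⟨_, rfl⟩
  have hL1 : 1 ≤ L := by
    rw [hL, Real.le_log_iff_exp_le hTp]
    linarith [Real.exp_one_lt_d9]
  have hLp : 0 < L := by linarith
  rw [← hL] at hG ⊢
  have hw := w1_nonneg Q d
  -- the integral
  have hlen8 : Len Q (T ^ (1 / 8 : ℝ)) :=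
    Len_mono hQ (Real.rpow_le_rpow_of_exponent_le hT1' (by linarith))
  have hI : ∫ t in T..(2 * T), ‖Dp V ⌊T ^ α⌋₊ (pt (1 / 2) t)‖ ^ (2 * k) * ‖RP S r t‖ ^ 2 ≤
      4 * mr T Q d := by
    have h1 : ∫ t in T..(2 * T), ‖Dp V ⌊T ^ α⌋₊ (pt (1 / 2) t)‖ ^ (2 * k) * ‖RP S r t‖ ^ 2 =
        ∫ t in T..(2 * T), ‖RP Q d t‖ ^ 2 := by
      refine intervalIntegral.integral_congr fun t _ => ?_
      rw [← DM.Rc_half, ← DM.Rc_half, ← hd', norm_mul, norm_pow, mul_pow, ← pow_mul, mul_comm 2 k]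
    rw [h1]
    refine up_mean hTp (hmass T hTTm Q hlen8 d _ _ ?_)
    calc T ^ (7 / 8 : ℝ) ≤ T ^ (1 : ℝ) := Real.rpow_le_rpow_of_exponent_le hT1' (by norm_num)
      _ = T := Real.rpow_one T
  have hmr : 4 * mr T Q d ≤ 16 * (T * w1 Q d) := by
    unfold mr
    have h3 : Real.sqrt (2 * Real.pi) ≤ 4 := by
      rw [Real.sqrt_le_left (by norm_num)]
      have := Real.pi_le_four
      linarith
    have h4 : 0 ≤ T * w1 Q d := by positivity
    nlinarith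
  -- the sum over the zeros
  have hlow : T * L * w1 Q d / 70 ≤ ∑ s ∈ G, ‖RP Q d s.im‖ ^ 2 := by
    refine le_trans ?_ hGs
    have hpi1 := Real.pi_gt_three
    have hpi2 := Real.pi_lt_d2
    have h4 : (1 : ℝ) / 70 ≤ (0.6725 - 3 * (1 / 10)) * (1 / 4 / (2 * Real.pi)) := by
      have h5 : (1 : ℝ) / 4 / 6.3 ≤ 1 / 4 / (2 * Real.pi) :=
        div_le_div_of_nonneg_left (by norm_num) (by positivity) (by linarith)
      have h7 : (0.6725 - 3 * (1 / 10)) * ((1 : ℝ) / 4 / 6.3) ≤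
          (0.6725 - 3 * (1 / 10)) * (1 / 4 / (2 * Real.pi)) :=
        mul_le_mul_of_nonneg_left h5 (by norm_num)
      have h6 : (1 : ℝ) / 70 ≤ (0.6725 - 3 * (1 / 10)) * (1 / 4 / 6.3) := by norm_num
      linarith
    have hlog : L ≤ Real.log (5 / 4 * T) := by
      rw [hL]
      exact Real.log_le_log hTp (by linarith)
    have h5 : 0 ≤ T * L * w1 Q d := by positivity
    calc T * L * w1 Q d / 70 = (1 / 70) * (T * L * w1 Q d) := by ring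
      _ ≤ ((0.6725 - 3 * (1 / 10)) * (1 / 4 / (2 * Real.pi))) * (T * L * w1 Q d) := by gcongr
      _ = (0.6725 - 3 * (1 / 10)) * (T / 4 / (2 * Real.pi) * L * w1 Q d) := by ring
      _ ≤ _ := by
          have h6 : (0 : ℝ) ≤ 0.6725 - 3 * (1 / 10) := by norm_num
          gcongr
  have hRP : ∀ s ∈ G, ‖RP Q d s.im‖ ^ 2 = (‖Dp V ⌊T ^ α⌋₊ s‖ ^ 2) ^ k * ‖RP S r s.im‖ ^ 2 := by
    intro s hs
    have hre := (hG s hs).1.re
    have e1 : pt (1 / 2) s.im = s := by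
      apply Complex.ext
      · rw [pt_re, hre]
      · rw [pt_im]
    rw [← DM.Rc_half, ← DM.Rc_half, e1, ← hd', norm_mul, norm_pow, mul_pow, ← pow_mul, ← pow_mul,
      mul_comm 2 k]
  have hsum : L ^ (2 * k) * ∑ s ∈ G, ‖RP Q d s.im‖ ^ 2 ≤
      A ^ k * ∑ s ∈ G, ‖deriv riemannZeta s‖ ^ (2 * k) * ‖RP S r s.im‖ ^ 2 := by
    rw [Finset.mul_sum, Finset.mul_sum]
    refine Finset.sum_le_sum fun s hs => ?_
    rw [hRP s hs]
    have h1 := (hG s hs).2.1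
    have h2 : (‖Dp V ⌊T ^ α⌋₊ s‖ ^ 2 * L ^ 2) ^ k ≤ (A * ‖deriv riemannZeta s‖ ^ 2) ^ k :=
      pow_le_pow_left₀ (by positivity) h1 k
    calc L ^ (2 * k) * ((‖Dp V ⌊T ^ α⌋₊ s‖ ^ 2) ^ k * ‖RP S r s.im‖ ^ 2) =
        (‖Dp V ⌊T ^ α⌋₊ s‖ ^ 2 * L ^ 2) ^ k * ‖RP S r s.im‖ ^ 2 := by
          rw [mul_pow, pow_mul]
          ring
      _ ≤ (A * ‖deriv riemannZeta s‖ ^ 2) ^ k * ‖RP S r s.im‖ ^ 2 := by gcongr
      _ = _ := by
          rw [mul_pow, ← pow_mul]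
          ring
  have hAk : 0 < A ^ k := by positivity
  have hfin : L ^ (2 * k) * (T * L * w1 Q d / 70) ≤
      A ^ k * ∑ s ∈ G, ‖deriv riemannZeta s‖ ^ (2 * k) * ‖RP S r s.im‖ ^ 2 :=
    (mul_le_mul_of_nonneg_left hlow (by positivity)).trans hsum
  have h9 : (A ^ k)⁻¹ * (L ^ (2 * k) * (T * L * w1 Q d / 70)) ≤
      ∑ s ∈ G, ‖deriv riemannZeta s‖ ^ (2 * k) * ‖RP S r s.im‖ ^ 2 := by
    rw [inv_mul_le_iff₀ hAk]
    exact hfin
  refine le_trans ?_ h9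
  calc (A ^ k)⁻¹ / 2000 * L ^ (2 * k + 1) * ∫ t in T..(2 * T),
        ‖Dp V ⌊T ^ α⌋₊ (pt (1 / 2) t)‖ ^ (2 * k) * ‖RP S r t‖ ^ 2 ≤
      (A ^ k)⁻¹ / 2000 * L ^ (2 * k + 1) * (16 * (T * w1 Q d)) := by
        refine mul_le_mul_of_nonneg_left (hI.trans hmr) (by positivity)
    _ = (A ^ k)⁻¹ * (L ^ (2 * k) * (T * L * w1 Q d * (16 / 2000))) := by
        rw [pow_succ]
        ring
    _ ≤ _ := by
        have h10 : 0 ≤ T * L * w1 Q d := by positivity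
        refine mul_le_mul_of_nonneg_left (mul_le_mul_of_nonneg_left ?_ (by positivity))
          (by positivity)
        linarith

end Run7.h311.DV
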