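import Pool.Agent.Run7.h311.DV.CoreE
import Pool.Agent.Run7.h311.DV.Frame
import Pool.Agent.Run7.h311.MO.Msd
import Pool.Agent.Run7.h311.MO.Right
import Pool.Agent.Run7.h311.EX.Ext

/-! # The size of the derivative at isolated simple zeros, in every weight -/

set_option autoImplicit false

open Complex Filter Topology Set MeasureTheory
open scoped BigOperators ComplexConjugate

namespace Run7.h311.DV

open Pool.Agent.N802 Pool.Agent.N802.U Pool.Agent.N802.WD Pool.Agent.N802.WD.Msd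
open Run7.h311.EX Run7.h311.MO
open Pool.Agent.R399.TW (pt pt_re pt_im pt_cont)

/-- **the size of the derivative** -/
theorem size {ε d0 δf Tf : ℝ} (hε : 0 < ε) (hd0 : 0 < d0) (hd1 : d0 ≤ 1 / 10)
    (hδf : 0 < δf) (hF : FrameE d0 δf Tf ε) : ∃ μ : ℝ, 0 < μ ∧ μ ≤ 1 / 32 ∧ ∀ α : ℝ, 0 < α →
    α ≤ 1 / 5 → ∃ A T0 : ℝ, 0 < A ∧ 100 ≤ T0 ∧ ∀ T : ℝ, T0 ≤ T → ∃ V : ℝ → ℝ,
    (∀ x, 0 ≤ V x ∧ V x ≤ 1) ∧ (∀ x, x ≤ α / 2 * Real.log T → V x = 1) ∧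
    (∀ x, α * Real.log T ≤ x → V x = 0) ∧
    ∀ S : Finset ℕ, Len S (T ^ μ) → ∀ r : ℕ → ℂ, ∃ G : Finset ℂ, (∀ s ∈ G, Iz d0 T s ∧
      ‖Dp V ⌊T ^ α⌋₊ s‖ ^ 2 * Real.log T ^ 2 ≤ A * ‖deriv riemannZeta s‖ ^ 2 ∧
      ‖Mp V ⌊T ^ α⌋₊ s‖ ^ 2 * ‖deriv riemannZeta s‖ ^ 2 ≤ A * Real.log T ^ 2) ∧
    (0.6725 - 3 * ε) * (T / 4 / (2 * Real.pi) * Real.log (5 / 4 * T) * w1 S r) ≤
      ∑ s ∈ G, ‖RP S r s.im‖ ^ 2 := by
  obtain ⟨q, Co, hCo, hq⟩ := msdc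
  obtain ⟨κ, e, δr, hκ, he, hδr, hδr32, hδre, hX⟩ := rightC hCo hq ker
  obtain ⟨μ, hμ⟩ : ∃ μ : ℝ, μ = min δf δr := ⟨_, rfl⟩
  have hμ0 : 0 < μ := by rw [hμ]; exact lt_min hδf hδr
  have hμf : μ ≤ δf := by rw [hμ]; exact min_le_left _ _
  have hμr : μ ≤ δr := by rw [hμ]; exact min_le_right _ _
  have hμ32 : μ ≤ 1 / 32 := hμr.trans hδr32
  refine ⟨μ, hμ0, hμ32, fun α hα0 hα5 => ?_⟩
  obtain ⟨C₀, C, Tr, hC₀, hC, hTr, hXr⟩ := hX (α / 2) α (by positivity) (by linarith) hα5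
  have hsq : Co * Real.sqrt μ ≤ min e e := by
    rw [min_self]
    refine le_trans ?_ hδre
    exact mul_le_mul_of_nonneg_left (Real.sqrt_le_sqrt hμr) hCo.le
  obtain ⟨a, Tm, ha, hTm, hm⟩ := hq (α / 2) α (α / 2) α κ e C₀ e μ
    (by positivity) (by linarith) (by positivity) (by linarith) hκ he hC₀ he
    hμ0 hsq (by linarith)
  obtain ⟨Tq, hTq⟩ := ev_quarter hμ0
  obtain ⟨Tmass, hTmass, hmass⟩ := rh_mass
  obtain ⟨N, hN⟩ : ∃ N : ℝ, N = 1000 / ε := ⟨_, rfl⟩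
  have hN0 : 0 < N := by rw [hN]; positivity
  obtain ⟨C₂, hC₂⟩ : ∃ C₂ : ℝ, C₂ = 6 / d0 * (C * Real.exp 3) := ⟨_, rfl⟩
  have hC₂0 : 0 < C₂ := by rw [hC₂]; positivity
  obtain ⟨Cs, L0, hCs, hL0, hcore⟩ := large_coreE hd0 hd1 (β := α / 2) (by positivity)
    (by linarith) hC₂0 hN0
  obtain ⟨X, hXd⟩ : ∃ X : ℝ, X = a * (2 ^ q * Real.exp (e + 2)) := ⟨_, rfl⟩
  have hX0 : 0 < X := by rw [hXd]; positivity
  obtain ⟨Θ, hΘ⟩ : ∃ Θ : ℝ, Θ = 6 / d0 * X := ⟨_, rfl⟩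
  have hΘ0 : 0 < Θ := by rw [hΘ]; positivity
  obtain ⟨X₂, hX₂⟩ : ∃ X₂ : ℝ, X₂ = 1400 / d0 ^ 3 * ((2 * C + 4) * Real.exp 3) := ⟨_, rfl⟩
  have hX₂0 : 0 < X₂ := by rw [hX₂]; positivity
  refine ⟨max (Cs * Θ) (N * X₂), max (max (max Tf Tr) (max Tm Tmass)) (max (max Tq 100)
    (Real.exp (max L0 120))), lt_max_of_lt_left (by positivity),
    le_trans (le_max_right _ _) (le_trans (le_max_left _ _) (le_max_right _ _)), fun T hT => ?_⟩
  have hT1 := (le_max_left _ _).trans hT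
  have hT2 := (le_max_right _ _).trans hT
  have hTTf : Tf ≤ T := ((le_max_left _ _).trans (le_max_left _ _)).trans hT1
  have hTTr : Tr ≤ T := ((le_max_right _ _).trans (le_max_left _ _)).trans hT1
  have hTTm : Tm ≤ T := ((le_max_left _ _).trans (le_max_right _ _)).trans hT1
  have hTTs : Tmass ≤ T := ((le_max_right _ _).trans (le_max_right _ _)).trans hT1
  have hTTq : Tq ≤ T := ((le_max_left _ _).trans (le_max_left _ _)).trans hT2
  have hT100 : 100 ≤ T := ((le_max_right _ _).trans (le_max_left _ _)).trans hT2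
  have hTTe : Real.exp (max L0 120) ≤ T := (le_max_right _ _).trans hT2
  have hTp : 0 < T := by linarith
  have hT1' : 1 ≤ T := by linarith
  obtain ⟨L, hL⟩ : ∃ L : ℝ, L = Real.log T := ⟨_, rfl⟩
  have hLb : max L0 120 ≤ L := by
    rw [hL, Real.le_log_iff_exp_le hTp]
    exact hTTe
  have hLL0 : L0 ≤ L := (le_max_left _ _).trans hLb
  have hL120 : 120 ≤ L := (le_max_right _ _).trans hLb
  have hLp : 0 < L := by linarith
  obtain ⟨V, Kv, hcf, hR⟩ := hXr T hTTr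
  have hmT := hm T hTTm V V Kv Kv hcf hcf
  obtain ⟨hq4, Z, hiz, hpts, hZ⟩ := hF T hTTf
  have hδq := hTq T hTTq
  refine ⟨V, fun x => ⟨hcf.nn x, hcf.le x⟩, hcf.one, hcf.zero, fun S hS r => ?_⟩
  set M := Mp V ⌊T ^ α⌋₊ with hM
  have hMd : Differentiable ℂ M := WD.Mp_diff V _
  have hw := w1_nonneg S r
  obtain ⟨W, hW⟩ : ∃ W : ℝ, W = T * L * w1 S r := ⟨_, rfl⟩
  have hW0 : 0 ≤ W := by rw [hW]; positivity
  have hfr := hZ S (Len_mono hS (Real.rpow_le_rpow_of_exponent_le hT1' hμf)) r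
  have hρ1 : d0 / (4 * L) ≤ 1 / (8 * L) := by
    rw [div_le_div_iff₀ (by positivity) (by positivity)]
    nlinarith
  have hpts' : Pts T (d0 / (4 * L)) Z := by rw [hL]; exact hpts
  have hsm : ∀ z : ℂ, ‖z‖ ≤ d0 / (4 * L) →
      ∑ s ∈ Z, ‖RP S r s.im‖ ^ 2 * ‖Dp V ⌊T ^ α⌋₊ s‖ ^ 2 * ‖M (s + z)‖ ^ 2 ≤ Θ * W := by
    intro z hz
    have h1 := dm_sum (T := T) (L := L) (a := a) (δ := μ) (ε := e) (κ := κ) (α₂ := α)
      (β₂ := α) (q := q) (V₁ := V) (V₂ := V) hT100 hL (by linarith) ha.le he.le hκ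
      (fun x => ⟨hcf.nn x, hcf.le x⟩) (fun x => ⟨hcf.nn x, hcf.le x⟩)
      hmT hS (by linarith) hδq r (by positivity : 0 < d0 / (4 * L)) hρ1 hpts' (v := z)
      (hz.trans hρ1)
    have h2 : ∑ s ∈ Z, ‖RP S r s.im‖ ^ 2 * ‖Dp V ⌊T ^ α⌋₊ s‖ ^ 2 * ‖M (s + z)‖ ^ 2 =
        ∑ s ∈ Z, ‖RP S r s.im‖ ^ 2 * ‖Dp V ⌊T ^ α⌋₊ s * M (s + z)‖ ^ 2 := by
      refine Finset.sum_congr rfl fun s hs => ?_
      rw [norm_mul, mul_pow]
      ring
    rw [h2]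
    refine h1.trans ?_
    rw [← hXd]
    refine (const_le hTp.le hLp hd0 hX0.le S r).trans ?_
    rw [hΘ, hW]
  have hrt : ∀ v : ℂ, -(3 / (8 * L)) ≤ v.re → v.re ≤ 20 → |v.im| ≤ 20 →
      ∑ s ∈ Z, ‖RP S r s.im‖ ^ 2 * ‖riemannZeta (s + v) * M (s + v) - 1‖ ^ 2 ≤
        C₂ * Real.exp (-(α / 2 * L * v.re)) * W := by
    intro v hv1 hv2 hv3
    have h1 := moll_sum (T := T) (L := L) (C := C) (δ := μ) (β₁ := α / 2) (β₂ := α) (V := V)
      hT100 hL (by linarith) hC.le (by positivity) (by linarith)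
      (fun S hS r τ H hH => hR S (Len_mono hS (Real.rpow_le_rpow_of_exponent_le hT1' hμr)) r τ H
        ((Real.rpow_le_rpow_of_exponent_le hT1' (by linarith)).trans hH))
      hS (by linarith) hδq r (by positivity : 0 < d0 / (4 * L)) hρ1 hpts' hv1 hv2 hv3
    refine h1.trans ?_
    refine (const_le hTp.le hLp hd0 (by positivity) S r).trans (le_of_eq ?_)
    rw [hC₂, hW]
    ring
  have hmain := hcore T L hT100 hL hLL0 Z hiz M hMd (fun s => ‖RP S r s.im‖ ^ 2)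
    (fun s => ‖Dp V ⌊T ^ α⌋₊ s‖ ^ 2) (fun s _ => sq_nonneg _) (fun s _ => sq_nonneg _) W hW0
    (by rw [hW, hL]; exact hfr.2) Θ hΘ0 hsm hrt
  -- the upper bound
  have hlen8 : Len S (T ^ (1 / 8 : ℝ)) :=
    Len_mono hS (Real.rpow_le_rpow_of_exponent_le hT1' (by linarith))
  have hmassT : ∀ r : ℕ → ℂ, ∫ t in T..(2 * T), rh (11 / 8 * T) (T / 4) S r t ≤
      2 * mr (T / 4) S r := by
    intro r
    rw [intervalIntegral.integral_of_le (by linarith)]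
    refine (setIntegral_le_integral (rh_intg (by positivity) S r)
      (Eventually.of_forall fun t => U.rh_nonneg _ _ _ _ t)).trans ?_
    refine hmass T hTTs S hlen8 r _ _ ?_
    refine le_trans ?_ hδq
    exact Real.rpow_le_rpow_of_exponent_le hT1' (by linarith)
  have hsum := small_core (T := T) (L := L) (C := C) (δ := μ) (β₁ := α / 2) (β₂ := α)
    (d0 := d0) (V := V) hT100 hL (by linarith) hC.le (by positivity) (by linarith) hd0 hd1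
    (fun S hS r τ H hH => hR S (Len_mono hS (Real.rpow_le_rpow_of_exponent_le hT1' hμr)) r τ H
        ((Real.rpow_le_rpow_of_exponent_le hT1' (by linarith)).trans hH))
    hS (by linarith) hδq r hmassT hpts' (fun s hs => (hiz s hs).zero)
  rw [← hX₂, ← hM, ← hW] at hsum
  have hbad : ∑ s ∈ Z.filter (fun s => N * X₂ * L ^ 2 < ‖M s‖ ^ 2 * ‖deriv riemannZeta s‖ ^ 2),
      ‖RP S r s.im‖ ^ 2 ≤ W / N := by
    refine sel (w := fun s => ‖RP S r s.im‖ ^ 2)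
      (f := fun s => ‖M s‖ ^ 2 * ‖deriv riemannZeta s‖ ^ 2)
      (fun s _ => sq_nonneg _) (fun s _ => by positivity) (by positivity)
      (Y := X₂ * L ^ 2 * W) hsum ?_
    exact le_of_eq (by field_simp)
  refine ⟨Z.filter (fun s => ‖Dp V ⌊T ^ α⌋₊ s‖ ^ 2 * L ^ 2 ≤ Cs * Θ * ‖deriv riemannZeta s‖ ^ 2 ∧
    ‖M s‖ ^ 2 * ‖deriv riemannZeta s‖ ^ 2 ≤ N * X₂ * L ^ 2), ?_, ?_⟩
  · intro s hs
    rw [Finset.mem_filter] at hs
    obtain ⟨hs, h1, h2⟩ := hs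
    rw [← hL]
    refine ⟨hiz s hs, h1.trans ?_, h2.trans ?_⟩
    · exact mul_le_mul_of_nonneg_right (le_max_left _ _) (sq_nonneg _)
    · exact mul_le_mul_of_nonneg_right (le_max_right _ _) (sq_nonneg _)
  · have h1 : ∑ s ∈ Z.filter (fun s => ‖Dp V ⌊T ^ α⌋₊ s‖ ^ 2 * L ^ 2 ≤
        Cs * Θ * ‖deriv riemannZeta s‖ ^ 2), ‖RP S r s.im‖ ^ 2 ≤
        ∑ s ∈ Z.filter (fun s => ‖Dp V ⌊T ^ α⌋₊ s‖ ^ 2 * L ^ 2 ≤ Cs * Θ * ‖deriv riemannZeta s‖ ^ 2 ∧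
        ‖M s‖ ^ 2 * ‖deriv riemannZeta s‖ ^ 2 ≤ N * X₂ * L ^ 2), ‖RP S r s.im‖ ^ 2 +
        ∑ s ∈ Z.filter (fun s => N * X₂ * L ^ 2 < ‖M s‖ ^ 2 * ‖deriv riemannZeta s‖ ^ 2),
          ‖RP S r s.im‖ ^ 2 := by
      simp only [Finset.sum_filter]
      rw [← Finset.sum_add_distrib]
      refine Finset.sum_le_sum fun s hs => ?_
      have h3 : 0 ≤ ‖RP S r s.im‖ ^ 2 := sq_nonneg _
      by_cases c1 : ‖Dp V ⌊T ^ α⌋₊ s‖ ^ 2 * L ^ 2 ≤ Cs * Θ * ‖deriv riemannZeta s‖ ^ 2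
      · by_cases c2 : ‖M s‖ ^ 2 * ‖deriv riemannZeta s‖ ^ 2 ≤ N * X₂ * L ^ 2
        · rw [if_pos c1, if_pos ⟨c1, c2⟩, if_neg (not_lt.2 c2)]
          linarith
        · rw [if_pos c1, if_neg (fun h => c2 h.2), if_pos (not_le.1 c2)]
          linarith
      · rw [if_neg c1]
        split_ifs <;> linarith
    have hmain' := hmain.trans (add_le_add_left (h1.trans (add_le_add_right hbad _)) _)
    have hlog : L ≤ Real.log (5 / 4 * T) := by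
      rw [hL]
      exact Real.log_le_log hTp (by linarith)
    have hpi1 := Real.pi_gt_three
    have hpi2 := Real.pi_lt_d2
    have h4 : 4 * (W / N) ≤ ε * (T / 4 / (2 * Real.pi) * Real.log (5 / 4 * T) * w1 S r) := by
      have h5 : W / N = ε / 1000 * W := by
        rw [hN]
        field_simp
      have h6 : (1 : ℝ) / 26 ≤ 1 / 4 / (2 * Real.pi) := by
        rw [div_div, div_le_div_iff₀ (by norm_num) (by positivity)]
        linarith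
      have h7 : T / 26 ≤ T / 4 / (2 * Real.pi) := by
        calc T / 26 = T * (1 / 26) := by ring
          _ ≤ T * (1 / 4 / (2 * Real.pi)) := by gcongr
          _ = _ := by ring
      have h8 : T / 26 * L * w1 S r ≤
          T / 4 / (2 * Real.pi) * Real.log (5 / 4 * T) * w1 S r := by gcongr
      rw [h5]
      calc 4 * (ε / 1000 * W) = ε * (4 / 1000 * W) := by ring
        _ ≤ ε * (T / 26 * L * w1 S r) := by
            refine mul_le_mul_of_nonneg_left ?_ hε.le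
            rw [hW]
            have : 0 ≤ T * L * w1 S r := by positivity
            linarith
        _ ≤ _ := mul_le_mul_of_nonneg_left h8 hε.le
    have h5 := hfr.1
    linarith

end Run7.h311.DV
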